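import Mathlib

/-!
# MP_894ea6_lc, Part I, P1GC: generic continuity

Proof. Let `L = L¹(X, μ)` (`Lp ℝ 1 μ`); it is a separable metric space
(`MeasureTheory.Lp.SecondCountableTopology`, `IsSeparable μ` holds because `X` is countably
generated). For every `i` and `A` the function `g i A` is bounded and measurable; let
`[g i A] ∈ L`. Let `{h_n}` be a countable dense subset of `L` and for `n`, `q ∈ ℚ_{>0}` let
`E i n q = {A | ∫ |g i A x - h_n x| dμ < q}`. This is a Borel subset of `ℕ → Bool` because
`(A, x) ↦ |g i A x - h_n x|` is jointly measurable and integrals depend measurably on the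
parameter (`StronglyMeasurable.integral_prod_right'`). By `MeasurableSet.residualEq_isOpen`
there is an open `U i n q` with `E i n q =ᵇ U i n q` (eventually equal for `residual`). Let `𝒢` be
the set of `A` such that for all `i n q`: `A ∈ E i n q ↔ A ∈ U i n q` (countable intersection of
residual sets: `eventually_countable_forall`). Given `i`, `A₀ ∈ 𝒢`, `ε > 0` choose `n` with
`∫ |g i A₀ - h_n| < q < ε/2`, `q` rational. Then `A₀ ∈ E i n q`, so `A₀ ∈ U i n q`, open, so it
contains a cylinder `{A | ∀ j < N, A j = A₀ j}` (basis of the product topology of `ℕ → Bool`;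
e.g. `isOpen_pi_iff` and take `N` larger than the finite set of coordinates). For `A ∈ 𝒢` in the
cylinder `A ∈ E i n q`, so `∫ |g i A - g i A₀| ≤ ∫ |g i A - h_n| + ∫ |h_n - g i A₀| < 2q < ε`.
(`ℕ → Bool` has the product topology; it is a Baire space but this is not needed here. The
`MeasurableSpace` on `ℕ → Bool` is the product one and `BorelSpace (ℕ → Bool)` is an instance.)
-/

set_option autoImplicit false
set_option linter.all false

open MeasureTheory Set Filter Topology ProbabilityTheory
open scoped ENNReal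

namespace Pool.Agent.H.MP_894ea6_lc

/-- A Borel family of functions is generically continuous in measure. -/
theorem generic_continuity {X : Type} [MeasurableSpace X] [StandardBorelSpace X] (μ : Measure X)
    [IsProbabilityMeasure μ] (g : ℕ → (ℕ → Bool) → X → ℝ)
    (hg : ∀ i, Measurable (fun p : (ℕ → Bool) × X => g i p.1 p.2))
    (hb : ∀ i A x, |g i A x| ≤ 1) :
    ∃ 𝒢 ∈ residual (ℕ → Bool), ∀ i, ∀ A₀ ∈ 𝒢, ∀ ε : ℝ, 0 < ε → ∃ N : ℕ, ∀ A ∈ 𝒢,
      (∀ j < N, A j = A₀ j) → ∫ x, |g i A x - g i A₀ x| ∂μ < ε := by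
  haveI : Fact ((1 : ℝ≥0∞) ≠ ∞) := ⟨ENNReal.one_ne_top⟩
  obtain ⟨h, hd⟩ := TopologicalSpace.exists_dense_seq (Lp ℝ 1 μ)
  -- sections
  have hsec : ∀ i A, Measurable (g i A) := fun i A => (hg i).comp measurable_prodMk_left
  have hint : ∀ i A, Integrable (g i A) μ := fun i A =>
    Integrable.of_bound (hsec i A).aestronglyMeasurable 1 (ae_of_all _ fun x => hb i A x)
  have hhint : ∀ n, Integrable (h n) μ := fun n => L1.integrable_coeFn (h n)
  have hhsm : ∀ n, StronglyMeasurable (h n) := fun n => Lp.stronglyMeasurable (h n)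
  let E : ℕ → ℕ → ℚ → Set (ℕ → Bool) := fun i n q => {A | ∫ x, |g i A x - h n x| ∂μ < q}
  have hE : ∀ i n q, MeasurableSet (E i n q) := by
    intro i n q
    have h1 : StronglyMeasurable (fun A : ℕ → Bool => ∫ x, |g i A x - h n x| ∂μ) := by
      have h2 : StronglyMeasurable (fun p : (ℕ → Bool) × X => |g i p.1 p.2 - h n p.2|) := by
        have h3 : Measurable (fun p : (ℕ → Bool) × X => |g i p.1 p.2 - h n p.2|) :=
          ((hg i).sub ((hhsm n).measurable.comp measurable_snd)).abs
        exact h3.stronglyMeasurable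
      exact h2.integral_prod_right
    exact measurableSet_lt h1.measurable measurable_const
  choose U hUo hUE using fun i n q => (hE i n q).residualEq_isOpen
  refine ⟨{A | ∀ i n q, (A ∈ E i n q ↔ A ∈ U i n q)}, ?_, ?_⟩
  · have h1 : ∀ᶠ A in residual (ℕ → Bool), ∀ i n q, (A ∈ E i n q ↔ A ∈ U i n q) := by
      rw [eventually_countable_forall]; intro i
      rw [eventually_countable_forall]; intro n
      rw [eventually_countable_forall]; intro q
      filter_upwards [hUE i n q] with A hA
      exact iff_of_eq hA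
    exact h1
  · intro i A₀ hA₀ ε hε
    -- choose `n`
    obtain ⟨n, hn⟩ : ∃ n, dist ((hint i A₀).toL1 (g i A₀)) (h n) < ε / 3 := by
      exact hd.exists_dist_lt ((hint i A₀).toL1 (g i A₀)) (show (0:ℝ) < ε / 3 by positivity)
    have hdist : dist ((hint i A₀).toL1 (g i A₀)) (h n) = ∫ x, |g i A₀ x - h n x| ∂μ := by
      rw [L1.dist_eq_integral_dist]
      refine integral_congr_ae ?_
      filter_upwards [(hint i A₀).coeFn_toL1] with x hx
      rw [hx, Real.dist_eq]
    rw [hdist] at hn
    obtain ⟨q, hq1, hq2⟩ := exists_rat_btwn (show ε / 3 < ε / 2 by linarith)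
    have hA₀E : A₀ ∈ E i n q := by
      show ∫ x, |g i A₀ x - h n x| ∂μ < (q : ℝ)
      linarith
    have hA₀U : A₀ ∈ U i n q := (hA₀ i n q).1 hA₀E
    obtain ⟨I, u, hu1, hu2⟩ := isOpen_pi_iff.1 (hUo i n q) A₀ hA₀U
    obtain ⟨N, hN⟩ : ∃ N, ∀ j ∈ I, j < N :=
      ⟨I.sup id + 1, fun j hj => Nat.lt_succ_of_le (Finset.le_sup (f := id) hj)⟩
    refine ⟨N, fun A hA hAN => ?_⟩
    have hAU : A ∈ U i n q := by
      apply hu2
      intro j hj
      rw [hAN j (hN j hj)]
      exact (hu1 j hj).2
    have hAE : A ∈ E i n q := (hA i n q).2 hAU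
    have h1 : ∫ x, |g i A x - g i A₀ x| ∂μ ≤
        ∫ x, (|g i A x - h n x| + |g i A₀ x - h n x|) ∂μ := by
      refine integral_mono ((hint i A).sub (hint i A₀)).abs
        (((hint i A).sub (hhint n)).abs.add ((hint i A₀).sub (hhint n)).abs) ?_
      intro x
      show |g i A x - g i A₀ x| ≤ |g i A x - h n x| + |g i A₀ x - h n x|
      have : g i A x - g i A₀ x = (g i A x - h n x) - (g i A₀ x - h n x) := by ring
      rw [this]
      exact abs_sub _ _
    have h4 : ∫ x, (|g i A x - h n x| + |g i A₀ x - h n x|) ∂μ =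
        ∫ x, |g i A x - h n x| ∂μ + ∫ x, |g i A₀ x - h n x| ∂μ :=
      integral_add ((hint i A).sub (hhint n)).abs ((hint i A₀).sub (hhint n)).abs
    rw [h4] at h1
    have h2 : ∫ x, |g i A x - h n x| ∂μ < q := hAE
    have h3 : ∫ x, |g i A₀ x - h n x| ∂μ < q := hA₀E
    linarith

end Pool.Agent.H.MP_894ea6_lc
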