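import Pool.Agent.H.MP_894ea6_lc.P1Defs

/-!
# MP_894ea6_lc, Part I, P1SysA: actions on `∏ Q i` and on `X` preserve the measures

All statements are elementary. `actQ g` acts coordinatewise by permutations of `Fin (n i + 1)`;
`Y.ν = Measure.infinitePi (fun i => unif (Y.n i))` and each `unif k` (the uniform measure) is
invariant under every permutation. Use `Measure.infinitePi_map_pi` (or the characterisation
`Measure.eq_infinitePi`: a measure agreeing with the product on boxes over finsets is the
product measure). `Y.μX = Y.μ.prod Y.ν`: `Measure.map_prod_map` with left invariance of Haar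
measure (`map_mul_left_eq_self`) and right invariance (`map_mul_right_eq_self`, field `rinvμ`).
`orb f x = fun g => f (actX g x)`, `shift g ω h = ω (h * g)`: `orb_actX` is
`f (actX h (actX g x)) = f (actX (h*g) x)`.
-/

set_option autoImplicit false
set_option linter.all false

open MeasureTheory Set Filter Topology ProbabilityTheory
open scoped ENNReal

namespace Pool.Agent.H.MP_894ea6_lc

/-- the uniform measure is invariant under permutations -/
theorem P1SysA_unif_map (k : ℕ) (σ : Equiv.Perm (Fin (k + 1))) :
    (unif k).map σ = unif k := by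
  apply Measure.ext_of_singleton
  intro a
  rw [Measure.map_apply (measurable_of_finite _) (MeasurableSet.singleton a)]
  have h1 : (⇑σ ⁻¹' {a}) = {σ.symm a} := by
    ext x
    simp only [mem_preimage, mem_singleton_iff]
    exact ⟨fun h => by rw [← h, Equiv.symm_apply_apply], fun h => by rw [h, Equiv.apply_symm_apply]⟩
  rw [h1]
  unfold unif
  rw [PMF.toMeasure_apply_singleton _ _ (MeasurableSet.singleton _),
    PMF.toMeasure_apply_singleton _ _ (MeasurableSet.singleton _)]
  simp only [PMF.uniformOfFintype_apply]

namespace Sys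

variable (Y : Sys)

theorem measurable_actQ (g : Y.G) : Measurable (Y.actQ g) := by
  unfold actQ
  refine measurable_pi_lambda _ (fun i => ?_)
  exact (measurable_of_finite (Y.σ i g)).comp (measurable_pi_apply i)

theorem actQ_mul (g h : Y.G) (y) : Y.actQ (g * h) y = Y.actQ g (Y.actQ h y) := by
  funext i
  show Y.σ i (g * h) (y i) = Y.σ i g (Y.σ i h (y i))
  rw [map_mul]
  rfl

theorem actQ_one (y) : Y.actQ 1 y = y := by
  funext i
  show Y.σ i 1 (y i) = y i
  rw [map_one]
  rfl

theorem map_actQ (g : Y.G) : Y.ν.map (Y.actQ g) = Y.ν := by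
  unfold ν actQ
  rw [Measure.infinitePi_map_pi (μ := fun i => unif (Y.n i)) (f := fun i => ⇑(Y.σ i g))
    (fun i => measurable_of_finite _)]
  congr 1
  funext i
  exact P1SysA_unif_map _ _

theorem measurable_actX (g : Y.G) : Measurable (Y.actX g) := by
  unfold actX
  exact (measurable_fst.const_mul _).prodMk ((Y.measurable_actQ g).comp measurable_snd)

theorem actX_mul (g h : Y.G) (x) : Y.actX (g * h) x = Y.actX g (Y.actX h x) := by
  refine Prod.ext ?_ ?_
  · show Y.ι (g * h) * x.1 = Y.ι g * (Y.ι h * x.1)
    rw [map_mul, mul_assoc]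
  · exact Y.actQ_mul g h x.2

theorem actX_one (x) : Y.actX 1 x = x := by
  refine Prod.ext ?_ ?_
  · show Y.ι 1 * x.1 = x.1
    rw [map_one, one_mul]
  · exact Y.actQ_one x.2

theorem map_actX (g : Y.G) : Y.μX.map (Y.actX g) = Y.μX := by
  have h : Y.actX g = Prod.map (fun t => Y.ι g * t) (Y.actQ g) := rfl
  rw [h]
  unfold μX
  rw [← Measure.map_prod_map _ _ (measurable_const_mul _) (Y.measurable_actQ g),
    Y.map_actQ g, map_mul_left_eq_self]

theorem measurable_rtX (t : Y.T) : Measurable (Y.rtX t) := by
  unfold rtX
  exact (measurable_fst.mul_const t).prodMk measurable_snd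

theorem map_rtX (t : Y.T) : Y.μX.map (Y.rtX t) = Y.μX := by
  have h : Y.rtX t = Prod.map (fun s => s * t) id := rfl
  rw [h]
  unfold μX
  rw [← Measure.map_prod_map _ _ (measurable_mul_const _) measurable_id,
    Measure.map_id, map_mul_right_eq_self]

theorem rtX_actX (t : Y.T) (g : Y.G) (x) : Y.rtX t (Y.actX g x) = Y.actX g (Y.rtX t x) :=
  Prod.ext (mul_assoc _ _ _) rfl

theorem measurable_orb {K : Type} [MeasurableSpace K] (f : Y.X → K) (hf : Measurable f) :
    Measurable (Y.orb f) := by
  unfold orb
  exact measurable_pi_lambda _ (fun g => hf.comp (Y.measurable_actX g))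

theorem orb_actX {K : Type} (f : Y.X → K) (g : Y.G) (x : Y.X) :
    Y.orb f (Y.actX g x) = shift g (Y.orb f x) := by
  funext h
  show f (Y.actX h (Y.actX g x)) = f (Y.actX (h * g) x)
  rw [Y.actX_mul]

end Sys

end Pool.Agent.H.MP_894ea6_lc
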