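import Pool.Agent.H.MP_894ea6_lc.P2CoareaB

/-!
# MP_894ea6_lc, Part II, P2Coarea: existence of a relatively almost invariant level set

For `u ∈ (0, ∞)` let `A u = {(q, ω) | u * N(q,ω) ≤ 1}` (as real numbers or in `ℝ≥0∞`),
`C u = cutSet r n (A u)`. All sums below are over the averaged measure
`P_⊗ = ∫ P t dμ(t)`, i.e. `∫⁻ t, P t (E) dμ = ∫⁻ q ∫⁻ ω ∫⁻ ω', 1_E dlam q dlam q dμF`
(`Coup.lintegral_avg`), for sets `E` depending only on `(q, ω, ω')`.
(1) `∫⁻ u ∈ (0,∞), P_⊗(C u) du = ∫⁻ q ∫⁻ ω, N(q,ω) * volume {u > 0 | u N ≤ 1} =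
∫⁻ q ∫⁻ ω, N * (1/N) = 1` because `N > 0` almost everywhere (`massfn_pos`) and
`volume (Ioc 0 (1/N)) = 1/N`.
(2) For `s ∈ S`: if `(q,ω,ω') ∈ C u` and `act s` of it is not in `C u` then one of:
(a) `ω ∉ goodSet s`, (b) `ω' ∉ goodSet s`, (c) `u * N(σF s q, shift s ω) > 1` (if `ω, ω'` are
both good then the shifted pair is near by `near_shift`). Integrating over `u`:
(a) `∫⁻ u, P_⊗(near, u N ≤ 1, ω ∉ good) = ∫⁻ q ∫⁻ ω, 1[ω ∉ good] N (1/N) ≤ law(ω ∉ good) ≤ 2e`;
(b) `= ∫⁻ q ∫⁻ ω, lam q(near ∩ goodᶜ) / N ≤ M 2e` (`avg_bad`);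
(c) `∫⁻ q ∫⁻ ω, N (1/N - 1/N')⁺` with `N' = N(σF s q, shift s ω)`, `= ∫∫ (1 - N/N')⁺`. By
invariance of the law of `(q, ω)` under `s` (`law_inv`, `lintegral_law_snd`; substitute
`(q,ω) = s⁻¹ (q₁,ω₁)`) this is `∫∫ (1 - N(s⁻¹ (q₁,ω₁)) / N(q₁,ω₁))⁺ ≤ (M+1) 2e` by
`avg_increase` for `s⁻¹ ∈ S` (truncated subtraction in `ℝ≥0∞`).
Total for each `s`: `≤ 2e + M 2e + (M+1) 2e = 4 (M+1) e`, and for the sum over `S`:
`≤ m 4 (M+1) e`.
(3) If for every `u > 0` with `P_⊗(C u) > 0` we had `Σ_s P_⊗(C u ∩ s⁻¹(C u)ᶜ) >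
4 m (M+1) e P_⊗(C u)`, integrating over `u` would give a strict inequality contradicting (1), (2)
(use `lintegral_strict_mono`-type argument, or: if the claim fails for all `u` then
`Σ_s ... ≥ 4m(M+1)e P_⊗(C u)` for all `u` with strict inequality on the positive measure set
`{u | P_⊗(C u) > 0}`, all quantities finite). So some `u` works; take `A = A u`.
It may be convenient to first prove the claim with `≤ (4 m (M+1) e)` replaced by the comparison of
integrals `∫⁻ u, Σ ... ≤ (4m(M+1)e) * ∫⁻ u, P_⊗(C u)` and use that `f < g` on a set of positive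
measure and `f ≤ g` everywhere, `∫ f < ∞` imply `∫ f < ∫ g`.
-/

set_option autoImplicit false
set_option linter.all false

open MeasureTheory Set Filter Topology ProbabilityTheory
open scoped ENNReal

namespace Pool.Agent.H.MP_894ea6_lc

namespace P2Coarea

theorem vol_le (x : ℝ≥0∞) (hx : x ≤ 1) :
    volume ({u : ℝ | ENNReal.ofReal u * x ≤ 1} ∩ Ioi 0) = x⁻¹ := by
  by_cases h0 : x = 0
  · subst h0
    have : ({u : ℝ | ENNReal.ofReal u * 0 ≤ 1} ∩ Ioi 0) = Ioi 0 := by
      ext u; simp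
    rw [this, Real.volume_Ioi, ENNReal.inv_zero]
  · have hf : x⁻¹ ≠ ∞ := ENNReal.inv_ne_top.2 h0
    have : ({u : ℝ | ENNReal.ofReal u * x ≤ 1} ∩ Ioi 0) = Ioc 0 (x⁻¹).toReal := by
      ext u
      simp only [mem_inter_iff, mem_setOf_eq, mem_Ioi, mem_Ioc]
      rw [← ENNReal.le_inv_iff_mul_le, ENNReal.ofReal_le_iff_le_toReal hf, and_comm]
    rw [this, Real.volume_Ioc, sub_zero, ENNReal.ofReal_toReal hf]

theorem vol_diff (x y : ℝ≥0∞) (hx : x ≤ 1) (hy : y ≤ 1) :
    volume ({u : ℝ | ENNReal.ofReal u * x ≤ 1 ∧ ¬ ENNReal.ofReal u * y ≤ 1} ∩ Ioi 0)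
      ≤ x⁻¹ - y⁻¹ := by
  by_cases hy0 : y = 0
  · subst hy0
    have : ({u : ℝ | ENNReal.ofReal u * x ≤ 1 ∧ ¬ ENNReal.ofReal u * 0 ≤ 1} ∩ Ioi 0) = ∅ := by
      ext u; simp
    rw [this, measure_empty]
    exact bot_le
  · have hyf : y⁻¹ ≠ ∞ := ENNReal.inv_ne_top.2 hy0
    by_cases h0 : x = 0
    · subst h0
      rw [ENNReal.inv_zero, ENNReal.top_sub hyf]
      exact le_top
    · have hf : x⁻¹ ≠ ∞ := ENNReal.inv_ne_top.2 h0
      have : ({u : ℝ | ENNReal.ofReal u * x ≤ 1 ∧ ¬ ENNReal.ofReal u * y ≤ 1} ∩ Ioi 0)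
          ⊆ Ioc (y⁻¹).toReal (x⁻¹).toReal := by
        intro u hu
        simp only [mem_inter_iff, mem_setOf_eq, mem_Ioi] at hu
        obtain ⟨⟨h1, h2⟩, h3⟩ := hu
        rw [← ENNReal.le_inv_iff_mul_le, ENNReal.ofReal_le_iff_le_toReal hf] at h1
        rw [← ENNReal.le_inv_iff_mul_le, ENNReal.ofReal_le_iff_le_toReal hyf, not_le] at h2
        exact ⟨h2, h1⟩
      refine (measure_mono this).trans ?_
      rw [Real.volume_Ioc, ENNReal.ofReal_sub _ ENNReal.toReal_nonneg,
        ENNReal.ofReal_toReal hf, ENNReal.ofReal_toReal hyf]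

theorem swap {Ω : Type} [MeasurableSpace Ω] (ρ : Measure Ω) [SFinite ρ] (E : Set (ℝ × Ω))
    (hE : MeasurableSet E) (h : Ω → ℝ≥0∞) (hh : Measurable h) :
    ∫⁻ u in Ioi (0 : ℝ), ∫⁻ p, E.indicator (fun z => h z.2) (u, p) ∂ρ
      = ∫⁻ p, h p * volume ({u : ℝ | (u, p) ∈ E} ∩ Ioi 0) ∂ρ := by
  have hm : Measurable (E.indicator (fun z : ℝ × Ω => h z.2)) :=
    (hh.comp measurable_snd).indicator hE
  have hsw := lintegral_lintegral_swap (μ := volume.restrict (Ioi (0 : ℝ))) (ν := ρ)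
    (f := fun u p => E.indicator (fun z : ℝ × Ω => h z.2) (u, p)) hm.aemeasurable
  rw [hsw]
  refine lintegral_congr fun p => ?_
  have hEp : MeasurableSet {u : ℝ | (u, p) ∈ E} := measurable_prodMk_right hE
  have : ∀ u, E.indicator (fun z : ℝ × Ω => h z.2) (u, p)
      = {u : ℝ | (u, p) ∈ E}.indicator (fun _ => h p) u := by
    intro u
    by_cases hu : (u, p) ∈ E
    · rw [indicator_of_mem hu, indicator_of_mem (show u ∈ {u : ℝ | (u, p) ∈ E} from hu)]
    · rw [indicator_of_notMem hu, indicator_of_notMem (show u ∉ {u : ℝ | (u, p) ∈ E} from hu)]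
  simp_rw [this]
  rw [lintegral_indicator hEp, setLIntegral_const, Measure.restrict_apply hEp]

/-- The abstract coarea argument. -/
theorem abstract {Ω : Type} [MeasurableSpace Ω] (ρ : Measure Ω) [IsProbabilityMeasure ρ]
    (N : Ω → ℝ≥0∞) (hN : Measurable N) (hN1 : ∀ p, N p ≤ 1) (hN0 : ∀ᵐ p ∂ρ, 0 < N p)
    {ι : Type} (S : Finset ι) (N' : ι → Ω → ℝ≥0∞) (hN' : ∀ s, Measurable (N' s))
    (hN'1 : ∀ s p, N' s p ≤ 1) (G : ι → Set Ω) (hG : ∀ s, MeasurableSet (G s))
    (β : ι → Ω → ℝ≥0∞) (hβ : ∀ s, Measurable (β s)) (a b c : ℝ≥0∞)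
    (ha : ∀ s ∈ S, ρ (G s) ≤ a) (hb : ∀ s ∈ S, ∫⁻ p, β s p / N p ∂ρ ≤ b)
    (hc : ∀ s ∈ S, ∫⁻ p, (1 - N p / N' s p) ∂ρ ≤ c) (d : ℝ≥0∞) (hd : S.card * (a + b + c) ≤ d)
    (hdf : d ≠ ∞) :
    ∃ u : ℝ, 0 < ∫⁻ p, {p | ENNReal.ofReal u * N p ≤ 1}.indicator N p ∂ρ ∧
      ∑ s ∈ S, ∫⁻ p, ({p | ENNReal.ofReal u * N p ≤ 1}.indicator (fun p => (G s).indicator N p) p
        + {p | ENNReal.ofReal u * N p ≤ 1}.indicator (β s) p
        + {p | ENNReal.ofReal u * N p ≤ 1 ∧ ¬ ENNReal.ofReal u * N' s p ≤ 1}.indicator N p) ∂ρ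
        ≤ d * ∫⁻ p, {p | ENNReal.ofReal u * N p ≤ 1}.indicator N p ∂ρ := by
  classical
  let E : Set (ℝ × Ω) := {z | ENNReal.ofReal z.1 * N z.2 ≤ 1}
  have hE : MeasurableSet E :=
    measurableSet_le ((ENNReal.measurable_ofReal.comp measurable_fst).mul (hN.comp measurable_snd))
      measurable_const
  let E' : ι → Set (ℝ × Ω) := fun s => {z | ENNReal.ofReal z.1 * N z.2 ≤ 1 ∧
    ¬ ENNReal.ofReal z.1 * N' s z.2 ≤ 1}
  have hE' : ∀ s, MeasurableSet (E' s) := fun s => by
    refine hE.inter (MeasurableSet.compl ?_)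
    exact measurableSet_le ((ENNReal.measurable_ofReal.comp measurable_fst).mul
      ((hN' s).comp measurable_snd)) measurable_const
  let Q : ℝ → ℝ≥0∞ := fun u => ∫⁻ p, {p | ENNReal.ofReal u * N p ≤ 1}.indicator N p ∂ρ
  let R : ℝ → ℝ≥0∞ := fun u => ∑ s ∈ S, ∫⁻ p,
    ({p | ENNReal.ofReal u * N p ≤ 1}.indicator (fun p => (G s).indicator N p) p
        + {p | ENNReal.ofReal u * N p ≤ 1}.indicator (β s) p
        + {p | ENNReal.ofReal u * N p ≤ 1 ∧ ¬ ENNReal.ofReal u * N' s p ≤ 1}.indicator N p) ∂ρ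
  have hind : ∀ (h : Ω → ℝ≥0∞) (u : ℝ) (p : Ω),
      {p | ENNReal.ofReal u * N p ≤ 1}.indicator h p = E.indicator (fun z => h z.2) (u, p) := by
    intro h u p
    by_cases hp : ENNReal.ofReal u * N p ≤ 1
    · rw [indicator_of_mem (show p ∈ {p | ENNReal.ofReal u * N p ≤ 1} from hp),
        indicator_of_mem (show (u, p) ∈ E from hp)]
    · rw [indicator_of_notMem (show p ∉ {p | ENNReal.ofReal u * N p ≤ 1} from hp),
        indicator_of_notMem (show (u, p) ∉ E from hp)]
  have hind' : ∀ (s : ι) (h : Ω → ℝ≥0∞) (u : ℝ) (p : Ω),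
      {p | ENNReal.ofReal u * N p ≤ 1 ∧ ¬ ENNReal.ofReal u * N' s p ≤ 1}.indicator h p
        = (E' s).indicator (fun z => h z.2) (u, p) := by
    intro s h u p
    by_cases hp : ENNReal.ofReal u * N p ≤ 1 ∧ ¬ ENNReal.ofReal u * N' s p ≤ 1
    · rw [indicator_of_mem (show p ∈ {p | ENNReal.ofReal u * N p ≤ 1 ∧
          ¬ ENNReal.ofReal u * N' s p ≤ 1} from hp), indicator_of_mem (show (u, p) ∈ E' s from hp)]
    · rw [indicator_of_notMem (show p ∉ {p | ENNReal.ofReal u * N p ≤ 1 ∧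
          ¬ ENNReal.ofReal u * N' s p ≤ 1} from hp),
        indicator_of_notMem (show (u, p) ∉ E' s from hp)]
  have hmeas : ∀ (A : Set (ℝ × Ω)) (hA : MeasurableSet A) (h : Ω → ℝ≥0∞) (hh : Measurable h),
      Measurable (A.indicator (fun z : ℝ × Ω => h z.2)) := fun A hA h hh =>
    (hh.comp measurable_snd).indicator hA
  have hGN : ∀ s, Measurable (fun p => (G s).indicator N p) := fun s => hN.indicator (hG s)
  -- integral of `Q`
  have hQint : ∫⁻ u in Ioi (0 : ℝ), Q u = 1 := by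
    have h1 : ∫⁻ u in Ioi (0 : ℝ), Q u = ∫⁻ p, N p * volume ({u : ℝ | (u, p) ∈ E} ∩ Ioi 0) ∂ρ := by
      rw [← swap ρ E hE N hN]
      refine lintegral_congr fun u => ?_
      exact lintegral_congr fun p => hind N u p
    rw [h1]
    have h2 : ∀ᵐ p ∂ρ, N p * volume ({u : ℝ | (u, p) ∈ E} ∩ Ioi 0) = 1 := by
      filter_upwards [hN0] with p hp
      have : volume ({u : ℝ | (u, p) ∈ E} ∩ Ioi 0) = (N p)⁻¹ := vol_le (N p) (hN1 p)
      rw [this]
      exact ENNReal.mul_inv_cancel hp.ne' (ne_top_of_le_ne_top ENNReal.one_ne_top (hN1 p))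
    rw [lintegral_congr_ae h2, lintegral_const, measure_univ, mul_one]
  have hQm : Measurable Q := by
    have : Q = fun u => ∫⁻ p, E.indicator (fun z => N z.2) (u, p) ∂ρ := by
      funext u; exact lintegral_congr fun p => hind N u p
    rw [this]
    exact (hmeas E hE N hN).lintegral_prod_right'
  -- integral of `R`
  have hRe : ∀ u, R u = ∑ s ∈ S, (∫⁻ p, E.indicator (fun z => (G s).indicator N z.2) (u, p) ∂ρ
      + ∫⁻ p, E.indicator (fun z => β s z.2) (u, p) ∂ρ
      + ∫⁻ p, (E' s).indicator (fun z => N z.2) (u, p) ∂ρ) := by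
    intro u
    refine Finset.sum_congr rfl fun s _ => ?_
    have m1 : Measurable (fun p => E.indicator (fun z => (G s).indicator N z.2) (u, p)) :=
      (hmeas E hE _ (hGN s)).comp measurable_prodMk_left
    have m2 : Measurable (fun p => E.indicator (fun z => β s z.2) (u, p)) :=
      (hmeas E hE _ (hβ s)).comp measurable_prodMk_left
    have m12 : Measurable (fun p => E.indicator (fun z => (G s).indicator N z.2) (u, p)
      + E.indicator (fun z => β s z.2) (u, p)) := m1.add m2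
    rw [← lintegral_add_left m1, ← lintegral_add_left m12]
    refine lintegral_congr fun p => ?_
    rw [hind (fun p => (G s).indicator N p), hind (β s), hind' s N]
  have hRm : Measurable R := by
    have : R = fun u => ∑ s ∈ S, (∫⁻ p, E.indicator (fun z => (G s).indicator N z.2) (u, p) ∂ρ
      + ∫⁻ p, E.indicator (fun z => β s z.2) (u, p) ∂ρ
      + ∫⁻ p, (E' s).indicator (fun z => N z.2) (u, p) ∂ρ) := funext hRe
    rw [this]
    refine Finset.measurable_sum _ fun s _ => ?_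
    exact ((hmeas E hE _ (hGN s)).lintegral_prod_right'.add
      (hmeas E hE _ (hβ s)).lintegral_prod_right').add (hmeas _ (hE' s) _ hN).lintegral_prod_right'
  have hRint : ∫⁻ u in Ioi (0 : ℝ), R u ≤ d := by
    simp_rw [hRe]
    rw [lintegral_finset_sum]
    · refine le_trans (Finset.sum_le_card_nsmul S _ (a + b + c) ?_) ?_
      · intro s hs
        have m1 : Measurable (fun u => ∫⁻ p, E.indicator (fun z => (G s).indicator N z.2) (u, p) ∂ρ) :=
          (hmeas E hE _ (hGN s)).lintegral_prod_right'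
        have m2 : Measurable (fun u => ∫⁻ p, E.indicator (fun z => β s z.2) (u, p) ∂ρ) :=
          (hmeas E hE _ (hβ s)).lintegral_prod_right'
        have m12 : Measurable (fun u => ∫⁻ p, E.indicator (fun z => (G s).indicator N z.2) (u, p) ∂ρ
          + ∫⁻ p, E.indicator (fun z => β s z.2) (u, p) ∂ρ) := m1.add m2
        rw [lintegral_add_left m12, lintegral_add_left m1, swap ρ E hE _ (hGN s),
          swap ρ E hE _ (hβ s), swap ρ (E' s) (hE' s) _ hN]
        refine add_le_add (add_le_add ?_ ?_) ?_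
        · refine le_trans ?_ (ha s hs)
          rw [← lintegral_indicator_one (hG s)]
          refine lintegral_mono fun p => ?_
          have hv : volume ({u : ℝ | (u, p) ∈ E} ∩ Ioi 0) = (N p)⁻¹ := vol_le (N p) (hN1 p)
          rw [hv]
          by_cases hp : p ∈ G s
          · rw [indicator_of_mem hp, indicator_of_mem hp]
            exact ENNReal.mul_inv_le_one _
          · rw [indicator_of_notMem hp, zero_mul]
            exact bot_le
        · refine le_trans (le_of_eq ?_) (hb s hs)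
          refine lintegral_congr fun p => ?_
          have hv : volume ({u : ℝ | (u, p) ∈ E} ∩ Ioi 0) = (N p)⁻¹ := vol_le (N p) (hN1 p)
          rw [hv, ENNReal.div_eq_inv_mul, mul_comm]
        · refine le_trans ?_ (hc s hs)
          refine lintegral_mono fun p => ?_
          have hv : volume ({u : ℝ | (u, p) ∈ E' s} ∩ Ioi 0) ≤ (N p)⁻¹ - (N' s p)⁻¹ :=
            vol_diff (N p) (N' s p) (hN1 p) (hN'1 s p)
          calc N p * volume ({u : ℝ | (u, p) ∈ E' s} ∩ Ioi 0)
              ≤ N p * ((N p)⁻¹ - (N' s p)⁻¹) := mul_le_mul_right hv _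
            _ = N p * (N p)⁻¹ - N p * (N' s p)⁻¹ :=
                ENNReal.mul_sub (fun _ _ => ne_top_of_le_ne_top ENNReal.one_ne_top (hN1 p))
            _ ≤ 1 - N p / N' s p := by
                refine tsub_le_tsub (ENNReal.mul_inv_le_one _) (le_of_eq ?_)
                rw [div_eq_mul_inv]
      · rw [nsmul_eq_mul]; exact hd
    · intro s _
      exact ((hmeas E hE _ (hGN s)).lintegral_prod_right'.add
        (hmeas E hE _ (hβ s)).lintegral_prod_right').add (hmeas _ (hE' s) _ hN).lintegral_prod_right'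
  -- conclusion
  by_contra hcon
  have hlt : ∀ u, Q u ≠ 0 → d * Q u < R u := fun u hu =>
    not_le.1 fun h2 => hcon ⟨u, pos_iff_ne_zero.2 hu, h2⟩
  have hle : ∀ u, d * Q u ≤ R u := by
    intro u
    by_cases hu : Q u = 0
    · rw [hu, mul_zero]; exact bot_le
    · exact (hlt u hu).le
  have hset : (volume.restrict (Ioi (0 : ℝ))) {u | Q u ≠ 0} ≠ 0 := by
    intro h
    have h1 : Q =ᵐ[volume.restrict (Ioi (0 : ℝ))] 0 := by
      rw [Filter.EventuallyEq, ae_iff]
      exact h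
    rw [lintegral_congr_ae h1] at hQint
    simp at hQint
  have hstrict := lintegral_strict_mono_of_ae_le_of_ae_lt_on (μ := volume.restrict (Ioi (0 : ℝ)))
    (f := fun u => d * Q u) (g := R) hRm.aemeasurable (by
      rw [lintegral_const_mul d hQm, hQint, mul_one]; exact hdf) (ae_of_all _ hle)
    (s := {u | Q u ≠ 0}) hset (ae_of_all _ fun u hu => hlt u hu)
  rw [lintegral_const_mul d hQm, hQint, mul_one] at hstrict
  exact absurd hRint (not_le.2 hstrict)

end P2Coarea


/-- the law of `(q, ω)` -/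
noncomputable def P2Coarea.rho {B : Base} {K : Type} [MeasurableSpace K] {e : ℝ} (c : Coup B K e) :
    Measure (c.F × (B.G → K)) := c.law.map (fun p => (p.1.2, p.2))

theorem P2Coarea.meas_aux {B : Base} {K : Type} [MeasurableSpace K] {e : ℝ} (c : Coup B K e) :
    Measurable (fun p : (B.T × c.F) × (B.G → K) => (p.1.2, p.2)) :=
  (measurable_snd.comp measurable_fst).prodMk measurable_snd

instance {B : Base} {K : Type} [MeasurableSpace K] {e : ℝ} (c : Coup B K e) :
    IsProbabilityMeasure (P2Coarea.rho c) :=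
  Measure.isProbabilityMeasure_map (P2Coarea.meas_aux c).aemeasurable

theorem P2Coarea.lintegral_rho {B : Base} {K : Type} [MeasurableSpace K] {e : ℝ} (c : Coup B K e)
    (f : c.F × (B.G → K) → ℝ≥0∞) (hf : Measurable f) :
    ∫⁻ p, f p ∂(P2Coarea.rho c) = ∫⁻ q, ∫⁻ ω, f (q, ω) ∂(c.lam q) ∂c.μF := by
  rw [P2Coarea.rho, lintegral_map hf (P2Coarea.meas_aux c)]
  exact c.lintegral_law_snd f hf

/-- measurability of functions on `F × Ω` -/
theorem P2Coarea.meas_prod {F Ω Z : Type} [Finite F] [MeasurableSpace F] [MeasurableSingletonClass F]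
    [MeasurableSpace Ω] [MeasurableSpace Z] (f : F × Ω → Z)
    (hf : ∀ q, Measurable (fun ω => f (q, ω))) : Measurable f :=
  measurable_from_prod_countable_right hf

theorem P2Coarea.meas_lam {B : Base} {K : Type} [MeasurableSpace K] {e : ℝ} (c : Coup B K e)
    (E : Set (c.F × ((B.G → K) × (B.G → K)))) (hE : MeasurableSet E) :
    Measurable (fun p : c.F × (B.G → K) => c.lam p.1 {ω' | (p.1, (p.2, ω')) ∈ E}) := by
  refine P2Coarea.meas_prod _ fun q => ?_
  exact measurable_measure_prodMk_left (ν := c.lam q)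
    (s := {z : (B.G → K) × (B.G → K) | (q, z) ∈ E}) (measurable_prodMk_left hE)

/-- averages of sets depending on `(q, ω, ω')` only -/
theorem P2Coarea.avg_set {B : Base} {K : Type} [MeasurableSpace K] {e : ℝ} (c : Coup B K e)
    (E : Set (c.F × ((B.G → K) × (B.G → K)))) (hE : MeasurableSet E) :
    ∫⁻ t, c.P t {p | (p.1.2, p.2) ∈ E} ∂B.μ
      = ∫⁻ p, c.lam p.1 {ω' | (p.1, (p.2, ω')) ∈ E} ∂(P2Coarea.rho c) := by
  rw [P2Coarea.lintegral_rho c _ (P2Coarea.meas_lam c E hE)]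
  have h1 := c.lintegral_avg (E.indicator 1) (measurable_one.indicator hE)
  have hm : Measurable (fun p : (B.T × c.F) × ((B.G → K) × (B.G → K)) => (p.1.2, p.2)) :=
    (measurable_snd.comp measurable_fst).prodMk measurable_snd
  have h2 : ∀ t, ∫⁻ p, E.indicator 1 (p.1.2, p.2) ∂(c.P t) = c.P t {p | (p.1.2, p.2) ∈ E} := by
    intro t
    have hme : MeasurableSet {p : (B.T × c.F) × ((B.G → K) × (B.G → K)) | (p.1.2, p.2) ∈ E} :=
      hm hE
    rw [← lintegral_indicator_one hme]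
    refine lintegral_congr fun p => ?_
    by_cases hp : (p.1.2, p.2) ∈ E
    · rw [indicator_of_mem hp, indicator_of_mem (show p ∈ {p : (B.T × c.F) × ((B.G → K) × (B.G → K)) | (p.1.2, p.2) ∈ E} from hp)]
      rfl
    · rw [indicator_of_notMem hp, indicator_of_notMem (show p ∉ {p : (B.T × c.F) × ((B.G → K) × (B.G → K)) | (p.1.2, p.2) ∈ E} from hp)]
  simp_rw [h2] at h1
  rw [h1]
  refine lintegral_congr fun q => lintegral_congr fun ω => ?_
  have hs : MeasurableSet {ω' | (q, (ω, ω')) ∈ E} := by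
    have : Measurable (fun ω' : B.G → K => (q, (ω, ω'))) :=
      measurable_const.prodMk (measurable_const.prodMk measurable_id)
    exact this hE
  rw [← lintegral_indicator_one hs]
  refine lintegral_congr fun ω' => ?_
  by_cases hp : (q, (ω, ω')) ∈ E
  · rw [indicator_of_mem hp, indicator_of_mem (show ω' ∈ {ω' | (q, (ω, ω')) ∈ E} from hp)]
    rfl
  · rw [indicator_of_notMem hp, indicator_of_notMem (show ω' ∉ {ω' | (q, (ω, ω')) ∈ E} from hp)]

theorem P2Coarea.map_rho {B : Base} {K : Type} [MeasurableSpace K] {e : ℝ} (c : Coup B K e)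
    (hG : c.Good) (g : B.G) :
    (P2Coarea.rho c).map (fun p => (c.σF g p.1, shift g p.2)) = P2Coarea.rho c := by
  have hm : Measurable (fun p : c.F × (B.G → K) => (c.σF g p.1, shift g p.2)) :=
    ((measurable_of_finite _).comp measurable_fst).prodMk ((measurable_shift g).comp measurable_snd)
  have hm2 : Measurable (fun p : (B.T × c.F) × (B.G → K) => (c.actB g p.1, shift g p.2)) :=
    ((c.measurable_actB g).comp measurable_fst).prodMk ((measurable_shift g).comp measurable_snd)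
  unfold P2Coarea.rho
  rw [Measure.map_map hm (P2Coarea.meas_aux c)]
  conv_rhs => rw [← c.law_inv hG g]
  rw [Measure.map_map (P2Coarea.meas_aux c) hm2]
  rfl

namespace Setup

variable {B : Base} {K : Type} [MeasurableSpace K] {e : ℝ} (D : Setup B K e)

/-- near pairs whose first component (with `q`) belongs to `A` -/
def cutSet (r : ℝ) (n : ℕ) (A : Set (D.c.F × (B.G → K))) :
    Set ((B.T × D.c.F) × ((B.G → K) × (B.G → K))) :=
  {p | D.near r n (p.2.1 1) (p.2.2 1) ∧ (p.1.2, p.2.1) ∈ A}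

theorem exists_level [StandardBorelSpace K] (he : 0 < e) (W : D.Sep) (r : ℝ) (hr : 0 < r)
    (hr0 : r ≤ W.r₀) (n : ℕ) (hn : W.n₀ ≤ n) :
    ∃ A : Set (D.c.F × (B.G → K)), MeasurableSet A ∧
      0 < ∫⁻ t, D.c.P t (D.cutSet r n A) ∂B.μ ∧
      ∑ s ∈ B.S, ∫⁻ t, D.c.P t (D.cutSet r n A ∩ (D.c.act s ⁻¹' (D.cutSet r n A)ᶜ)) ∂B.μ
        ≤ ENNReal.ofReal (4 * m B * (B.M + 1) * e) * ∫⁻ t, D.c.P t (D.cutSet r n A) ∂B.μ := by
  classical
  let N : D.c.F × (B.G → K) → ℝ≥0∞ := fun p => D.massfn r n p.1 p.2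
  have hN : Measurable N := D.massfn_measurable r n
  have hN1 : ∀ p, N p ≤ 1 := fun p => D.massfn_le_one r n p.1 p.2
  have hact : ∀ s : B.G, Measurable (fun p : D.c.F × (B.G → K) => (D.c.σF s p.1, shift s p.2)) :=
    fun s => ((measurable_of_finite _).comp measurable_fst).prodMk
      ((measurable_shift s).comp measurable_snd)
  let N' : B.G → D.c.F × (B.G → K) → ℝ≥0∞ := fun s p => N (D.c.σF s p.1, shift s p.2)
  have hN' : ∀ s, Measurable (N' s) := fun s => hN.comp (hact s)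
  let Gd : B.G → Set (D.c.F × (B.G → K)) := fun s => {p | p.2 ∉ W.goodSet s}
  have hGd : ∀ s, MeasurableSet (Gd s) := fun s =>
    measurable_snd (D.measurableSet_goodSet W s).compl
  have hnear : MeasurableSet {x : D.c.F × ((B.G → K) × (B.G → K)) | D.near r n (x.2.1 1) (x.2.2 1)} := by
    have h1 : Measurable (fun x : D.c.F × ((B.G → K) × (B.G → K)) => (x.2.1 1, x.2.2 1)) :=
      ((measurable_pi_apply 1).comp (measurable_fst.comp measurable_snd)).prodMk
        ((measurable_pi_apply 1).comp (measurable_snd.comp measurable_snd))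
    exact h1 (D.measurableSet_near r n)
  have hgood2 : ∀ s, MeasurableSet {x : D.c.F × ((B.G → K) × (B.G → K)) | x.2.2 ∈ (W.goodSet s)ᶜ} :=
    fun s => (measurable_snd.comp measurable_snd) (D.measurableSet_goodSet W s).compl
  let β : B.G → D.c.F × (B.G → K) → ℝ≥0∞ := fun s p =>
    D.c.lam p.1 ({ω' | D.near r n (p.2 1) (ω' 1)} ∩ (W.goodSet s)ᶜ)
  have hβ : ∀ s, Measurable (β s) := fun s =>
    P2Coarea.meas_lam D.c ({x | D.near r n (x.2.1 1) (x.2.2 1)} ∩ {x | x.2.2 ∈ (W.goodSet s)ᶜ})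
      (hnear.inter (hgood2 s))
  have hN0 : ∀ᵐ p ∂(P2Coarea.rho D.c), 0 < N p := by
    have hms : MeasurableSet {p | ¬ 0 < N p} := (measurableSet_lt measurable_const hN).compl
    rw [ae_iff, ← lintegral_indicator_one hms,
      P2Coarea.lintegral_rho D.c _ (measurable_one.indicator hms)]
    have : ∀ q, ∫⁻ ω, {p | ¬ 0 < N p}.indicator 1 (q, ω) ∂(D.c.lam q) = 0 := by
      intro q
      have h1 : (fun ω => {p | ¬ 0 < N p}.indicator (1 : D.c.F × (B.G → K) → ℝ≥0∞) (q, ω))
          =ᵐ[D.c.lam q] 0 := by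
        filter_upwards [D.massfn_pos r hr n q] with ω hω
        have : (q, ω) ∉ {p | ¬ 0 < N p} := fun h => h hω
        rw [indicator_of_notMem this]
        rfl
      rw [lintegral_congr_ae h1]
      simp
    simp_rw [this]
    simp
  have ha : ∀ s ∈ B.S, (P2Coarea.rho D.c) (Gd s) ≤ ENNReal.ofReal (2 * e) := by
    intro s hs
    have h1 := D.law_goodSet_compl W s hs
    rw [P2Coarea.rho, Measure.map_apply (P2Coarea.meas_aux D.c) (hGd s)]
    rw [measureReal_def] at h1
    exact (ENNReal.le_ofReal_iff_toReal_le (measure_ne_top _ _) (by positivity)).2 h1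
  have hb : ∀ s ∈ B.S, ∫⁻ p, β s p / N p ∂(P2Coarea.rho D.c) ≤ B.M * ENNReal.ofReal (2 * e) := by
    intro s hs
    have hmm : Measurable (fun p => β s p / N p) := (hβ s).div hN
    rw [P2Coarea.lintegral_rho D.c _ hmm]
    exact D.avg_bad he W s hs r hr n
  have hc : ∀ s ∈ B.S, ∫⁻ p, (1 - N p / N' s p) ∂(P2Coarea.rho D.c)
      ≤ (B.M + 1) * ENNReal.ofReal (2 * e) := by
    intro s hs
    have hmm : Measurable (fun p => 1 - N p / N' s p) := measurable_const.sub (hN.div (hN' s))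
    have hmm2 : Measurable (fun p => 1 - N' s⁻¹ p / N p) :=
      measurable_const.sub ((hN' s⁻¹).div hN)
    have h1 : ∫⁻ p, (1 - N p / N' s p) ∂(P2Coarea.rho D.c)
        = ∫⁻ p, (1 - N' s⁻¹ p / N p) ∂(P2Coarea.rho D.c) := by
      conv_lhs => rw [← P2Coarea.map_rho D.c D.good s⁻¹]
      rw [lintegral_map hmm (hact s⁻¹)]
      refine lintegral_congr fun p => ?_
      have h2 : N' s (D.c.σF s⁻¹ p.1, shift s⁻¹ p.2) = N p := by
        show N (D.c.σF s (D.c.σF s⁻¹ p.1), shift s (shift s⁻¹ p.2)) = N p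
        rw [← shift_mul, ← Equiv.Perm.mul_apply, ← map_mul, mul_inv_cancel, map_one, shift_one]
        rfl
      rw [h2]
    rw [h1, P2Coarea.lintegral_rho D.c _ hmm2]
    exact D.avg_increase he W s⁻¹ (B.S_inv s hs) r hr hr0 n hn
  have hd : (B.S.card : ℝ≥0∞) * (ENNReal.ofReal (2 * e) + B.M * ENNReal.ofReal (2 * e)
      + (B.M + 1) * ENNReal.ofReal (2 * e)) ≤ ENNReal.ofReal (4 * m B * (B.M + 1) * e) := by
    have h1 : (B.S.card : ℝ≥0∞) = ENNReal.ofReal (B.S.card : ℝ) := (ENNReal.ofReal_natCast _).symm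
    have h2 : (B.M : ℝ≥0∞) = ENNReal.ofReal (B.M : ℝ) := (ENNReal.ofReal_natCast _).symm
    rw [h1, h2, ← ENNReal.ofReal_one, ← ENNReal.ofReal_add (by positivity) (by positivity),
      ← ENNReal.ofReal_mul (by positivity), ← ENNReal.ofReal_mul (by positivity),
      ← ENNReal.ofReal_add (by positivity) (by positivity),
      ← ENNReal.ofReal_add (by positivity) (by positivity), ← ENNReal.ofReal_mul (by positivity)]
    apply ENNReal.ofReal_le_ofReal
    unfold m
    apply le_of_eq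
    ring
  obtain ⟨u, hu1, hu2⟩ := P2Coarea.abstract (P2Coarea.rho D.c) N hN hN1 hN0 B.S N' hN'
    (fun s p => hN1 _) Gd hGd β hβ _ _ _ ha hb hc _ hd ENNReal.ofReal_ne_top
  let A : Set (D.c.F × (B.G → K)) := {p | ENNReal.ofReal u * N p ≤ 1}
  have hA : MeasurableSet A := measurableSet_le (measurable_const.mul hN) measurable_const
  have hAx : MeasurableSet {x : D.c.F × ((B.G → K) × (B.G → K)) | (x.1, x.2.1) ∈ A} := by
    have h1 : Measurable (fun x : D.c.F × ((B.G → K) × (B.G → K)) => (x.1, x.2.1)) :=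
      measurable_fst.prodMk (measurable_fst.comp measurable_snd)
    exact h1 hA
  have hcut : ∫⁻ t, D.c.P t (D.cutSet r n A) ∂B.μ = ∫⁻ p, A.indicator N p ∂(P2Coarea.rho D.c) := by
    have h1 := P2Coarea.avg_set D.c ({x | D.near r n (x.2.1 1) (x.2.2 1)} ∩ {x | (x.1, x.2.1) ∈ A})
      (hnear.inter hAx)
    refine Eq.trans (Eq.trans ?_ h1) ?_
    · rfl
    · refine lintegral_congr fun p => ?_
      by_cases hp : p ∈ A
      · rw [indicator_of_mem hp]
        show D.c.lam p.1 _ = D.c.lam p.1 _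
        congr 1
        ext ω'
        exact ⟨fun h => h.1, fun h => ⟨h, hp⟩⟩
      · rw [indicator_of_notMem hp]
        have : {ω' | (p.1, (p.2, ω')) ∈ ({x | D.near r n (x.2.1 1) (x.2.2 1)} ∩
            {x : D.c.F × ((B.G → K) × (B.G → K)) | (x.1, x.2.1) ∈ A})} = ∅ := by
          ext ω'
          simp only [mem_setOf_eq, mem_inter_iff, mem_empty_iff_false, iff_false]
          exact fun h => hp h.2
        rw [this, measure_empty]
  refine ⟨A, hA, by rw [hcut]; exact hu1, ?_⟩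
  rw [hcut]
  refine le_trans (Finset.sum_le_sum fun s hs => ?_) hu2
  -- the three parts
  have hE1 : MeasurableSet {x : D.c.F × ((B.G → K) × (B.G → K)) | x.2.1 ∈ (W.goodSet s)ᶜ} :=
    (measurable_fst.comp measurable_snd) (D.measurableSet_goodSet W s).compl
  have hE3 : MeasurableSet {x : D.c.F × ((B.G → K) × (B.G → K)) |
      (D.c.σF s x.1, shift s x.2.1) ∈ Aᶜ} := by
    have h1 : Measurable (fun x : D.c.F × ((B.G → K) × (B.G → K)) =>
        (D.c.σF s x.1, shift s x.2.1)) :=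
      (hact s).comp (measurable_fst.prodMk (measurable_fst.comp measurable_snd))
    exact h1 hA.compl
  let E : Set (D.c.F × ((B.G → K) × (B.G → K))) :=
    ({x | D.near r n (x.2.1 1) (x.2.2 1)} ∩ {x | (x.1, x.2.1) ∈ A}) ∩
      ({x | x.2.1 ∈ (W.goodSet s)ᶜ} ∪ ({x | x.2.2 ∈ (W.goodSet s)ᶜ} ∪
        {x | (D.c.σF s x.1, shift s x.2.1) ∈ Aᶜ}))
  have hE : MeasurableSet E := (hnear.inter hAx).inter (hE1.union ((hgood2 s).union hE3))
  have hsub : D.cutSet r n A ∩ (D.c.act s ⁻¹' (D.cutSet r n A)ᶜ) ⊆ {p | (p.1.2, p.2) ∈ E} := by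
    rintro p ⟨hp1, hp2⟩
    refine ⟨⟨hp1.1, hp1.2⟩, ?_⟩
    by_cases h1 : p.2.1 ∈ W.goodSet s
    · right
      by_cases h2 : p.2.2 ∈ W.goodSet s
      · right
        intro h3
        apply hp2
        exact ⟨D.near_shift W s hs r hr0 n hn p.2.1 p.2.2 h1 h2 hp1.1, h3⟩
      · left; exact h2
    · left; exact h1
  refine le_trans (lintegral_mono fun t => measure_mono hsub) ?_
  rw [P2Coarea.avg_set D.c E hE]
  refine lintegral_mono fun p => ?_
  by_cases hp : p ∈ A
  · have hpn : ∀ X : Set (B.G → K), X ⊆ {ω' | D.near r n (p.2 1) (ω' 1)} → D.c.lam p.1 X ≤ N p :=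
      fun X hX => measure_mono hX
    have hXn : {ω' | (p.1, (p.2, ω')) ∈ E} ⊆ {ω' | D.near r n (p.2 1) (ω' 1)} :=
      fun ω' h => h.1.1
    by_cases h1 : p ∈ Gd s
    · have h2 : A.indicator (fun p => (Gd s).indicator N p) p = N p := by
        rw [indicator_of_mem hp, indicator_of_mem h1]
      calc D.c.lam p.1 {ω' | (p.1, (p.2, ω')) ∈ E} ≤ N p := hpn _ hXn
        _ = A.indicator (fun p => (Gd s).indicator N p) p := h2.symm
        _ ≤ _ := by rw [add_assoc]; exact le_self_add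
    · by_cases h3 : (D.c.σF s p.1, shift s p.2) ∈ A
      · have h2 : A.indicator (β s) p = β s p := indicator_of_mem hp _
        have h4 : {ω' | (p.1, (p.2, ω')) ∈ E} ⊆
            {ω' | D.near r n (p.2 1) (ω' 1)} ∩ (W.goodSet s)ᶜ := by
          rintro ω' ⟨h5, h6⟩
          refine ⟨h5.1, ?_⟩
          rcases h6 with h6 | h6 | h6
          · exact absurd h6 h1
          · exact h6
          · exact absurd h3 h6
        calc D.c.lam p.1 {ω' | (p.1, (p.2, ω')) ∈ E} ≤ β s p := measure_mono h4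
          _ = A.indicator (β s) p := h2.symm
          _ ≤ _ := by
            refine le_trans ?_ (le_self_add (a := _) )
            exact le_add_self
      · have h2 : {p | ENNReal.ofReal u * N p ≤ 1 ∧ ¬ ENNReal.ofReal u * N' s p ≤ 1}.indicator N p
            = N p := indicator_of_mem (show p ∈ {p | ENNReal.ofReal u * N p ≤ 1 ∧
              ¬ ENNReal.ofReal u * N' s p ≤ 1} from ⟨hp, h3⟩) _
        calc D.c.lam p.1 {ω' | (p.1, (p.2, ω')) ∈ E} ≤ N p := hpn _ hXn
          _ = _ := h2.symm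
          _ ≤ _ := le_add_self
  · have : {ω' | (p.1, (p.2, ω')) ∈ E} = ∅ := by
      ext ω'
      simp only [mem_empty_iff_false, iff_false]
      exact fun h => hp h.1.2
    rw [this, measure_empty]
    exact bot_le

end Setup

end Pool.Agent.H.MP_894ea6_lc
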