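import Pool.Agent.H.MP_894ea6_lc.P2Basic

/-!
# MP_894ea6_lc, Part II, P2CoareaA: measurability and error estimates for the good sets

`measurableSet_near`: the relation `near r n` on `K × K` is measurable (distance of measurable
functions into a separable metric space; `lev n ∘ ψ` and `j` are ℕ-valued measurable).
`measurableSet_goodSet`: `{ω | ω 1 ∈ L ∧ ω s = R s (ω 1)}` (`K` is standard Borel so equality of
measurable functions is measurable: `measurableSet_eq_fun`).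
`law_goodSet_compl`: the complement of the good set is contained in
`{ω 1 ∉ L} ∪ {ω s ≠ R s (ω 1)}`, measure `≤ e + e` (`W.L_large`, `D.good.err_step`).
`near_shift`: if `ω, ω' ∈ W.goodSet s`, `s ∈ S`, `near r n (ω 1) (ω' 1)`, `r ≤ W.r₀`, `W.n₀ ≤ n`
then `near r n (shift s ω 1) (shift s ω' 1)` (note `shift s ω 1 = ω (1 * s) = ω s = R s (ω 1)`):
`near W.r₀ W.n₀` holds too (monotonicity of `lev`: `lev n` equal implies `lev n₀` equal for
`n₀ ≤ n`), so by `W.sep` the labels `g = lab s (ω 1) = lab s (ω' 1)` agree and the `j`'s agree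
after the step; `φ (R s k) = ι g φ k` and left invariance of the metric (`B.iso`), `lev_act`.
-/

set_option autoImplicit false
set_option linter.all false

open MeasureTheory Set Filter Topology ProbabilityTheory
open scoped ENNReal

namespace Pool.Agent.H.MP_894ea6_lc

namespace Setup

variable {B : Base} {K : Type} [MeasurableSpace K] {e : ℝ} (D : Setup B K e)

theorem lev_le (n n' : ℕ) (h : n ≤ n') (y y' : D.τ.Y) (hy : D.τ.lev n' y = D.τ.lev n' y') :
    D.τ.lev n y = D.τ.lev n y' := by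
  induction n', h using Nat.le_induction with
  | base => exact hy
  | succ m hm ih => exact ih (D.τ.lev_mono m y y' hy)

theorem measurableSet_near (r : ℝ) (n : ℕ) : MeasurableSet {p : K × K | D.near r n p.1 p.2} := by
  have h1 : MeasurableSet {p : K × K | dist (D.τ.φ p.1) (D.τ.φ p.2) ≤ r} :=
    measurableSet_le ((D.τ.φ_meas.comp measurable_fst).dist (D.τ.φ_meas.comp measurable_snd))
      measurable_const
  have h2 : MeasurableSet {p : K × K | D.τ.lev n (D.τ.ψ p.1) = D.τ.lev n (D.τ.ψ p.2)} :=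
    measurableSet_eq_fun (((D.τ.lev_meas n).comp D.τ.ψ_meas).comp measurable_fst)
      (((D.τ.lev_meas n).comp D.τ.ψ_meas).comp measurable_snd)
  have h3 : MeasurableSet {p : K × K | D.τ.j p.1 = D.τ.j p.2} :=
    measurableSet_eq_fun (D.τ.j_meas.comp measurable_fst) (D.τ.j_meas.comp measurable_snd)
  exact h1.inter (h2.inter h3)

theorem measurableSet_goodSet [StandardBorelSpace K] (W : D.Sep) (s : B.G) :
    MeasurableSet (W.goodSet s) := by
  have h1 : MeasurableSet {ω : B.G → K | ω 1 ∈ W.L} := measurable_pi_apply 1 W.L_meas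
  have h2 : MeasurableSet {ω : B.G → K | ω s = D.c.R s (ω 1)} :=
    measurableSet_eq_fun (measurable_pi_apply s) ((D.c.R_meas s).comp (measurable_pi_apply 1))
  exact h1.inter h2

theorem law_goodSet_compl [StandardBorelSpace K] (W : D.Sep) (s : B.G) (hs : s ∈ B.S) :
    D.c.law.real {p | p.2 ∉ W.goodSet s} ≤ 2 * e := by
  have hsub : {p : (B.T × D.c.F) × (B.G → K) | p.2 ∉ W.goodSet s} ⊆
      {p | p.2 1 ∉ W.L} ∪ {p | p.2 s ≠ D.c.R s (p.2 1)} := by
    intro p hp
    by_contra hcon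
    apply hp
    simp only [mem_union, mem_setOf_eq, not_or, not_not] at hcon
    exact ⟨hcon.1, hcon.2⟩
  calc D.c.law.real {p | p.2 ∉ W.goodSet s}
      ≤ D.c.law.real ({p | p.2 1 ∉ W.L} ∪ {p | p.2 s ≠ D.c.R s (p.2 1)}) :=
        measureReal_mono hsub
    _ ≤ D.c.law.real {p | p.2 1 ∉ W.L} + D.c.law.real {p | p.2 s ≠ D.c.R s (p.2 1)} :=
        measureReal_union_le _ _
    _ ≤ e + e := add_le_add W.L_large (D.good.err_step s hs)
    _ = 2 * e := by ring

theorem near_shift (W : D.Sep) (s : B.G) (hs : s ∈ B.S) (r : ℝ) (hr : r ≤ W.r₀) (n : ℕ)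
    (hn : W.n₀ ≤ n) (ω ω' : B.G → K) (hω : ω ∈ W.goodSet s) (hω' : ω' ∈ W.goodSet s)
    (h : D.near r n (ω 1) (ω' 1)) : D.near r n (shift s ω 1) (shift s ω' 1) := by
  have hnear : D.near W.r₀ W.n₀ (ω 1) (ω' 1) :=
    ⟨h.1.trans hr, D.lev_le W.n₀ n hn _ _ h.2.1, h.2.2⟩
  obtain ⟨hlab, hj⟩ := W.sep (ω 1) hω.1 (ω' 1) hω'.1 hnear s hs
  have e1 : shift s ω 1 = D.c.R s (ω 1) := by
    have : shift s ω 1 = ω s := by simp [shift]
    rw [this]; exact hω.2
  have e2 : shift s ω' 1 = D.c.R s (ω' 1) := by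
    have : shift s ω' 1 = ω' s := by simp [shift]
    rw [this]; exact hω'.2
  obtain ⟨hφ, hψ⟩ := D.lab_spec s hs (ω 1)
  obtain ⟨hφ', hψ'⟩ := D.lab_spec s hs (ω' 1)
  rw [e1, e2]
  refine ⟨?_, ?_, hj⟩
  · rw [hφ, hφ', ← hlab, B.iso]
    exact h.1
  · rw [hψ, hψ', ← hlab]
    exact D.τ.lev_act n _ _ _ h.2.1

/-- the same for the level sets only, when the pair is near at the scale of `W` -/
theorem lev_shift (W : D.Sep) (s : B.G) (hs : s ∈ B.S) (n : ℕ) (ω ω' : B.G → K)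
    (hω : ω ∈ W.goodSet s) (hω' : ω' ∈ W.goodSet s) (h : D.near W.r₀ W.n₀ (ω 1) (ω' 1))
    (hl : D.τ.lev n (D.τ.ψ (ω 1)) = D.τ.lev n (D.τ.ψ (ω' 1))) :
    D.τ.lev n (D.τ.ψ (shift s ω 1)) = D.τ.lev n (D.τ.ψ (shift s ω' 1)) ∧
      D.τ.j (shift s ω 1) = D.τ.j (shift s ω' 1) := by
  obtain ⟨hlab, hj⟩ := W.sep (ω 1) hω.1 (ω' 1) hω'.1 h s hs
  have e1 : shift s ω 1 = D.c.R s (ω 1) := by
    have : shift s ω 1 = ω s := by simp [shift]
    rw [this]; exact hω.2
  have e2 : shift s ω' 1 = D.c.R s (ω' 1) := by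
    have : shift s ω' 1 = ω' s := by simp [shift]
    rw [this]; exact hω'.2
  obtain ⟨hφ, hψ⟩ := D.lab_spec s hs (ω 1)
  obtain ⟨hφ', hψ'⟩ := D.lab_spec s hs (ω' 1)
  rw [e1, e2]
  refine ⟨?_, hj⟩
  rw [hψ, hψ', ← hlab]
  exact D.τ.lev_act n _ _ _ hl

end Setup

end Pool.Agent.H.MP_894ea6_lc
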