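import Pool.Agent.H.MP_894ea6_lc.P2Defs

/-!
# MP_894ea6_lc, Part II, P2Doubling: the doubling estimate

Notation: `N ω = {ω' | dist (a ω) (a ω') ≤ r ∧ b ω = b ω'}` (measurable, `N` is a symmetric
relation, jointly measurable). Let `cell` be the function given by `B.dbl r`.
`near_pos_ae`: the sets `A p = {ω | cell (a ω) = p.1 ∧ b ω = p.2}`, `p : ℕ × ℕ`, form a countable
measurable partition and `A p ⊆ N ω` for `ω ∈ A p`. So `{ω | m (N ω) = 0}` is contained in the
union of the `A p` with `m (A p) = 0`.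
`doubling_bound`: by Fubini (Tonelli) the left side is
`∫⁻ ω, (∫⁻ ω', 1[ω' ∈ N ω] 1[ω' ∈ Bad] dm) / m (N ω) dm = ∫⁻ ω' in Bad, (∫⁻ ω, 1[ω ∈ N ω'] /
m (N ω) dm(ω)) dm(ω')`. For fixed `ω'`, `N ω'` is covered by the sets `A (i, b ω')` with
`i ∈ {i | ∃ y, dist (a ω') y ≤ r ∧ cell y = i}`, a set with at most `B.M` elements, and on
`A p`: `m (N ω) ≥ m (A p)`, so `∫⁻ ω in A p, 1/m (N ω) ≤ m (A p) / m (A p) ≤ 1`. So the inner
integral is `≤ B.M`. (`0/0 = 0` in `ℝ≥0∞`.)
-/

set_option autoImplicit false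
set_option linter.all false

open MeasureTheory Set Filter Topology ProbabilityTheory
open scoped ENNReal

namespace Pool.Agent.H.MP_894ea6_lc

/-- the neighbourhood of `ω`. -/
private def dblN (B : Base) {Ω : Type} (a : Ω → B.T) (b : Ω → ℕ) (r : ℝ) (ω : Ω) : Set Ω :=
  {ω' | dist (a ω) (a ω') ≤ r ∧ b ω = b ω'}

private def dblA (B : Base) {Ω : Type} (a : Ω → B.T) (b : Ω → ℕ) (cell : B.T → ℕ) (i j : ℕ) :
    Set Ω := {ω | cell (a ω) = i ∧ b ω = j}

private theorem dblA_sub (B : Base) {Ω : Type} (a : Ω → B.T) (b : Ω → ℕ) (r : ℝ)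
    (cell : B.T → ℕ) (hc : ∀ x y, cell x = cell y → dist x y ≤ r) (i j : ℕ) (ω : Ω)
    (h : ω ∈ dblA B a b cell i j) : dblA B a b cell i j ⊆ dblN B a b r ω := by
  intro ω' h'
  exact ⟨hc _ _ (h.1.trans h'.1.symm), h.2.trans h'.2.symm⟩

private theorem dblA_meas (B : Base) {Ω : Type} [MeasurableSpace Ω] (a : Ω → B.T)
    (ha : Measurable a) (b : Ω → ℕ) (hb : Measurable b) (cell : B.T → ℕ) (hc : Measurable cell)
    (i j : ℕ) : MeasurableSet (dblA B a b cell i j) :=
  ((hc.comp ha) (measurableSet_singleton i)).inter (hb (measurableSet_singleton j))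

private theorem dblR_meas (B : Base) {Ω : Type} [MeasurableSpace Ω] (a : Ω → B.T)
    (ha : Measurable a) (b : Ω → ℕ) (hb : Measurable b) (r : ℝ) :
    MeasurableSet {p : Ω × Ω | dist (a p.1) (a p.2) ≤ r ∧ b p.1 = b p.2} := by
  haveI : SecondCountableTopology B.T := inferInstance
  refine MeasurableSet.inter ?_ ?_
  · exact measurableSet_le ((ha.comp measurable_fst).dist (ha.comp measurable_snd))
      measurable_const
  · exact measurableSet_eq_fun (hb.comp measurable_fst) (hb.comp measurable_snd)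

/-- Let `N ω = m {ω' | dist (a ω) (a ω') ≤ r ∧ b ω = b ω'}`. Then the average of the relative
mass of a bad set in these neighbourhoods is at most `M` times its mass. -/
theorem doubling_bound (B : Base) {Ω : Type} [MeasurableSpace Ω] (m : Measure Ω)
    [IsProbabilityMeasure m] (a : Ω → B.T) (ha : Measurable a) (b : Ω → ℕ) (hb : Measurable b)
    (r : ℝ) (hr : 0 < r) (Bad : Set Ω) (hBad : MeasurableSet Bad) :
    ∫⁻ ω, m ({ω' | dist (a ω) (a ω') ≤ r ∧ b ω = b ω'} ∩ Bad)
        / m {ω' | dist (a ω) (a ω') ≤ r ∧ b ω = b ω'} ∂m ≤ B.M * m Bad := by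
  obtain ⟨cell, hcm, hcd, hcM⟩ := B.dbl r hr
  have hR := dblR_meas B a ha b hb r
  have hN : ∀ ω, MeasurableSet (dblN B a b r ω) := fun ω =>
    (measurable_prodMk_left (x := ω)) hR
  have hmN : Measurable (fun ω => m (dblN B a b r ω)) := measurable_measure_prodMk_left hR
  -- the function on the product
  let g : Ω → Ω → ℝ≥0∞ := fun ω ω' =>
    ({p : Ω × Ω | dist (a p.1) (a p.2) ≤ r ∧ b p.1 = b p.2} ∩ {p | p.2 ∈ Bad}).indicator
      (fun p => (m (dblN B a b r p.1))⁻¹) (ω, ω')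
  have hg : Measurable (Function.uncurry g) := by
    have h1 : Measurable (fun p : Ω × Ω => (m (dblN B a b r p.1))⁻¹) :=
      (hmN.comp measurable_fst).inv
    exact h1.indicator (hR.inter (measurable_snd hBad))
  have h1 : ∀ ω, m (dblN B a b r ω ∩ Bad) / m (dblN B a b r ω) = ∫⁻ ω', g ω ω' ∂m := by
    intro ω
    have h2 : (fun ω' => g ω ω') = (dblN B a b r ω ∩ Bad).indicator
        (fun _ => (m (dblN B a b r ω))⁻¹) := by
      funext ω'
      rfl
    rw [h2, lintegral_indicator_const ((hN ω).inter hBad), ENNReal.div_eq_inv_mul]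
  have h3 : ∀ ω', ∫⁻ ω, g ω ω' ∂m ≤ Bad.indicator (fun _ => (B.M : ℝ≥0∞)) ω' := by
    intro ω'
    by_cases hB : ω' ∈ Bad
    · rw [indicator_of_mem hB]
      have h4 : (fun ω => g ω ω') = (dblN B a b r ω').indicator
          (fun ω => (m (dblN B a b r ω))⁻¹) := by
        funext ω
        by_cases h : dist (a ω) (a ω') ≤ r ∧ b ω = b ω'
        · have h5 : ω ∈ dblN B a b r ω' := ⟨by rw [dist_comm]; exact h.1, h.2.symm⟩
          rw [indicator_of_mem h5]
          have h6 : (ω, ω') ∈ ({p : Ω × Ω | dist (a p.1) (a p.2) ≤ r ∧ b p.1 = b p.2} ∩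
              {p | p.2 ∈ Bad}) := ⟨h, hB⟩
          exact indicator_of_mem h6 _
        · have h5 : ω ∉ dblN B a b r ω' := fun h6 =>
            h ⟨by rw [dist_comm]; exact h6.1, h6.2.symm⟩
          rw [indicator_of_notMem h5]
          exact indicator_of_notMem (fun h6 => h h6.1) _
      rw [h4, lintegral_indicator (hN ω')]
      have hfin : {i | ∃ y, dist (a ω') y ≤ r ∧ cell y = i}.Finite := by
        refine Set.finite_of_encard_le_coe (k := B.M) ?_
        exact hcM (a ω')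
      let I := hfin.toFinset
      have hI : (I.card : ℝ≥0∞) ≤ B.M := by
        have h6 := hcM (a ω')
        rw [hfin.encard_eq_coe_toFinset_card] at h6
        exact_mod_cast h6
      have hcov : dblN B a b r ω' ⊆ ⋃ i ∈ I, dblA B a b cell i (b ω') := by
        intro ω h
        refine mem_iUnion₂.2 ⟨cell (a ω), ?_, rfl, h.2.symm⟩
        exact hfin.mem_toFinset.2 ⟨a ω, h.1, rfl⟩
      have h7 : ∀ i, ∫⁻ ω in dblA B a b cell i (b ω'), (m (dblN B a b r ω))⁻¹ ∂m ≤ 1 := by
        intro i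
        have hA := dblA_meas B a ha b hb cell hcm i (b ω')
        calc ∫⁻ ω in dblA B a b cell i (b ω'), (m (dblN B a b r ω))⁻¹ ∂m
            ≤ ∫⁻ ω in dblA B a b cell i (b ω'), (m (dblA B a b cell i (b ω')))⁻¹ ∂m := by
              refine setLIntegral_mono' hA fun ω hω => ?_
              exact ENNReal.inv_le_inv.2 (measure_mono (dblA_sub B a b r cell hcd i _ ω hω))
          _ = (m (dblA B a b cell i (b ω')))⁻¹ * m (dblA B a b cell i (b ω')) := by
              rw [setLIntegral_const]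
          _ ≤ 1 := ENNReal.inv_mul_le_one _
      calc ∫⁻ ω in dblN B a b r ω', (m (dblN B a b r ω))⁻¹ ∂m
          ≤ ∫⁻ ω in ⋃ i ∈ I, dblA B a b cell i (b ω'), (m (dblN B a b r ω))⁻¹ ∂m :=
            lintegral_mono_set hcov
        _ = ∑ i ∈ I, ∫⁻ ω in dblA B a b cell i (b ω'), (m (dblN B a b r ω))⁻¹ ∂m := by
            refine lintegral_biUnion_finset ?_ (fun i _ => dblA_meas B a ha b hb cell hcm i _) _
            intro i _ j _ hij
            refine Set.disjoint_left.2 fun ω h8 h9 => hij ?_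
            exact h8.1.symm.trans h9.1
        _ ≤ ∑ i ∈ I, 1 := Finset.sum_le_sum fun i _ => h7 i
        _ = I.card := by simp
        _ ≤ B.M := hI
    · have h4 : (fun ω => g ω ω') = fun _ => 0 := by
        funext ω
        exact indicator_of_notMem (fun h6 => hB h6.2) _
      rw [h4]
      simp
  calc ∫⁻ ω, m ({ω' | dist (a ω) (a ω') ≤ r ∧ b ω = b ω'} ∩ Bad)
        / m {ω' | dist (a ω) (a ω') ≤ r ∧ b ω = b ω'} ∂m
      = ∫⁻ ω, ∫⁻ ω', g ω ω' ∂m ∂m := lintegral_congr fun ω => h1 ω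
    _ = ∫⁻ ω', ∫⁻ ω, g ω ω' ∂m ∂m := lintegral_lintegral_swap hg.aemeasurable
    _ ≤ ∫⁻ ω', Bad.indicator (fun _ => (B.M : ℝ≥0∞)) ω' ∂m := lintegral_mono h3
    _ = B.M * m Bad := lintegral_indicator_const hBad _

/-- These neighbourhoods have positive measure almost everywhere. -/
theorem near_pos_ae (B : Base) {Ω : Type} [MeasurableSpace Ω] (m : Measure Ω)
    [IsProbabilityMeasure m] (a : Ω → B.T) (ha : Measurable a) (b : Ω → ℕ) (hb : Measurable b)
    (r : ℝ) (hr : 0 < r) :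
    ∀ᵐ ω ∂m, 0 < m {ω' | dist (a ω) (a ω') ≤ r ∧ b ω = b ω'} := by
  obtain ⟨cell, hcm, hcd, hcM⟩ := B.dbl r hr
  have h1 : ∀ i j, ∀ᵐ ω ∂m, ω ∈ dblA B a b cell i j → 0 < m (dblN B a b r ω) := by
    intro i j
    by_cases h : m (dblA B a b cell i j) = 0
    · have h2 : ∀ᵐ ω ∂m, ω ∉ dblA B a b cell i j := measure_eq_zero_iff_ae_notMem.1 h
      filter_upwards [h2] with ω h3 h4
      exact absurd h4 h3
    · refine Eventually.of_forall fun ω h2 => ?_
      exact (pos_iff_ne_zero.2 h).trans_le (measure_mono (dblA_sub B a b r cell hcd i j ω h2))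
  have h2 := ae_all_iff.2 fun i => ae_all_iff.2 fun j => h1 i j
  filter_upwards [h2] with ω h
  exact h (cell (a ω)) (b ω) ⟨rfl, rfl⟩

end Pool.Agent.H.MP_894ea6_lc
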