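import Mathlib

/-!
# MP_894ea6_lc, Part II, P2SepA: separation lemma (Lusin-Souslin and inner regularity)

Let `W = T × ((ℕ → ℕ) × ℕ)`, a Polish space, and `η k = (φ k, (fun n => l n k, j k))`, an
injective measurable map `K → W` between standard Borel spaces, hence a `MeasurableEmbedding`
(`Measurable.measurableEmbedding`). For `i : ℕ` the sets `B i = η '' (α ⁻¹' {i})` are Borel and
pairwise disjoint; `m' = m.map η` is a finite measure on the Polish space `W`. Choose `M` with
`m (α ⁻¹' {i | i ≥ M}) ≤ ε/2` (real or ENNReal; take `ε` finite w.l.o.g.), and compact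
`C i ⊆ B i` (`i < M`) with `m' (B i \ C i) ≤ ε / (2(M+1))` (inner regularity of finite measures
on Polish spaces with respect to compact sets). `L = η⁻¹(⋃_{i<M} C i)`, measurable,
`m Lᶜ ≤ ε`. Separation: suppose no `(r₀, n₀)` works; then for each `N` there are `k_N, k'_N ∈ L`
with `dist (φ k) (φ k') ≤ 1/(N+1)`, `l N` equal (hence `l n` equal for all `n ≤ N` by `hmono`),
`j` equal, `α k ≠ α k'`. Pass to subsequences in the compact set `C = ⋃ C i` (product of
sequences: `C × C` is compact): `η k_N → u ∈ C`, `η k'_N → u' ∈ C`; then `u = u'` (first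
components by the distance, the sequences: coordinate `n` is eventually constant along a
convergent sequence in the discrete space ℕ, equal for both; `j` similarly). `u ∈ C i` for one
`i`; the other `C i'` are closed and do not contain `u`, so eventually `η k_N, η k'_N ∈ C i` (they
lie in the finite union of the `C i'`), so `α k_N = i = α k'_N`, a contradiction. (Alternative:
use that disjoint compact sets have positive distance for a suitable metric.)
-/

set_option autoImplicit false
set_option linter.all false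

open MeasureTheory Set Filter Topology ProbabilityTheory
open scoped ENNReal

namespace Pool.Agent.H.MP_894ea6_lc

/-- General separation lemma: a countable valued measurable function `α` on a standard Borel
space `K` with a measurable injection `(φ, (l n)_n, j)` depends, outside a set of small measure,
only on finitely much information about `(φ, (l n)_n, j)`. -/
theorem sep_general {K : Type} [MeasurableSpace K] [StandardBorelSpace K]
    {T : Type} [MetricSpace T] [CompactSpace T] [MeasurableSpace T] [BorelSpace T]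
    (φ : K → T) (hφ : Measurable φ) (l : ℕ → K → ℕ) (hl : ∀ n, Measurable (l n))
    (hmono : ∀ n k k', l (n + 1) k = l (n + 1) k' → l n k = l n k')
    (j : K → ℕ) (hj : Measurable j)
    (hinj : ∀ k k', φ k = φ k' → (∀ n, l n k = l n k') → j k = j k' → k = k')
    (α : K → ℕ) (hα : Measurable α) (m : Measure K) [IsFiniteMeasure m] (ε : ℝ≥0∞) (hε : 0 < ε) :
    ∃ L : Set K, MeasurableSet L ∧ m Lᶜ ≤ ε ∧ ∃ r₀ : ℝ, 0 < r₀ ∧ ∃ n₀ : ℕ,
      ∀ k ∈ L, ∀ k' ∈ L, dist (φ k) (φ k') ≤ r₀ → l n₀ k = l n₀ k' → j k = j k' →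
        α k = α k' := by
  classical
  let W : Type := T × ((ℕ → ℕ) × ℕ)
  let η : K → W := fun k => (φ k, (fun n => l n k, j k))
  have hηm : Measurable η := hφ.prodMk ((measurable_pi_lambda _ hl).prodMk hj)
  have hηi : Function.Injective η := by
    intro k k' h
    have h1 : φ k = φ k' := congrArg Prod.fst h
    have h2 : (fun n => l n k) = (fun n => l n k') := congrArg (fun w => w.2.1) h
    have h3 : j k = j k' := congrArg (fun w => w.2.2) h
    exact hinj k k' h1 (fun n => congrFun h2 n) h3
  haveI : PolishSpace T := inferInstance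
  haveI : PolishSpace W := inferInstance
  haveI : BorelSpace W := inferInstance
  have hηe : MeasurableEmbedding η := hηm.measurableEmbedding hηi
  let B : ℕ → Set W := fun i => η '' (α ⁻¹' {i})
  have hBm : ∀ i, MeasurableSet (B i) := fun i =>
    hηe.measurableSet_image.2 (hα (measurableSet_singleton i))
  have hBdisj : ∀ i i', i ≠ i' → Disjoint (B i) (B i') := by
    intro i i' hii
    rw [Set.disjoint_left]
    rintro w ⟨k, hk, rfl⟩ ⟨k', hk', hkk⟩
    have := hηi hkk
    subst this
    exact hii ((mem_singleton_iff.1 hk).symm.trans (mem_singleton_iff.1 hk'))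
  let m' : Measure W := m.map η
  haveI : IsFiniteMeasure m' := inferInstance
  -- choose `M`
  have hM : ∃ M : ℕ, m (α ⁻¹' {i | M ≤ i}) < ε / 2 := by
    have h1 : Tendsto (fun M : ℕ => m (α ⁻¹' {i | M ≤ i})) atTop (𝓝 (m (⋂ M : ℕ, α ⁻¹' {i | M ≤ i}))) := by
      refine tendsto_measure_iInter_atTop (fun M => (hα (MeasurableSet.of_discrete)).nullMeasurableSet) ?_ ⟨0, measure_ne_top _ _⟩
      intro a b hab k hk
      exact le_trans hab hk
    have h2 : (⋂ M : ℕ, α ⁻¹' {i | M ≤ i}) = ∅ := by
      ext k
      simp only [mem_iInter, mem_preimage, mem_setOf_eq, mem_empty_iff_false, iff_false, not_forall,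
        not_le]
      exact ⟨α k + 1, Nat.lt_succ_self _⟩
    rw [h2, measure_empty] at h1
    have h3 := (tendsto_order.1 h1).2 (ε / 2) (ENNReal.half_pos hε.ne')
    exact h3.exists
  obtain ⟨M, hM⟩ := hM
  -- choose compact sets
  have hε' : 0 < ε / 2 / (M + 1) := by
    refine ENNReal.div_pos (ENNReal.half_pos hε.ne').ne' ?_
    exact ENNReal.add_ne_top.2 ⟨ENNReal.natCast_ne_top M, ENNReal.one_ne_top⟩
  have hC : ∀ i, ∃ C : Set W, C ⊆ B i ∧ IsCompact C ∧ m' (B i \ C) < ε / 2 / (M + 1) := by
    intro i
    exact (hBm i).exists_isCompact_diff_lt (measure_ne_top _ _) hε'.ne'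
  choose C hCB hCc hCm using hC
  let CC : Set W := ⋃ i ∈ Finset.range M, C i
  have hCCc : IsCompact CC := (Finset.range M).isCompact_biUnion fun i _ => hCc i
  have hCCm : MeasurableSet CC := hCCc.measurableSet
  refine ⟨η ⁻¹' CC, hηm hCCm, ?_, ?_⟩
  · -- measure
    have hsub : (η ⁻¹' CC)ᶜ ⊆ α ⁻¹' {i | M ≤ i} ∪ ⋃ i ∈ Finset.range M, η ⁻¹' (B i \ C i) := by
      intro k hk
      by_cases hkM : M ≤ α k
      · exact Or.inl hkM
      · right
        push Not at hkM
        simp only [mem_iUnion]
        refine ⟨α k, Finset.mem_range.2 hkM, ⟨k, rfl, rfl⟩, ?_⟩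
        intro hkC
        apply hk
        show η k ∈ CC
        simp only [CC, mem_iUnion]
        exact ⟨α k, Finset.mem_range.2 hkM, hkC⟩
    calc m (η ⁻¹' CC)ᶜ ≤ m (α ⁻¹' {i | M ≤ i} ∪ ⋃ i ∈ Finset.range M, η ⁻¹' (B i \ C i)) :=
          measure_mono hsub
      _ ≤ m (α ⁻¹' {i | M ≤ i}) + m (⋃ i ∈ Finset.range M, η ⁻¹' (B i \ C i)) :=
          measure_union_le _ _
      _ ≤ ε / 2 + ∑ i ∈ Finset.range M, m (η ⁻¹' (B i \ C i)) :=
          add_le_add hM.le (measure_biUnion_finset_le _ _)
      _ ≤ ε / 2 + ∑ i ∈ Finset.range M, ε / 2 / (M + 1) := by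
          refine add_le_add le_rfl (Finset.sum_le_sum fun i _ => ?_)
          have := hCm i
          rw [Measure.map_apply hηm ((hBm i).diff (hCc i).measurableSet)] at this
          exact this.le
      _ ≤ ε / 2 + ε / 2 := by
          refine add_le_add le_rfl ?_
          rw [Finset.sum_const, Finset.card_range, nsmul_eq_mul]
          calc (M : ℝ≥0∞) * (ε / 2 / (M + 1)) ≤ (M + 1) * (ε / 2 / (M + 1)) :=
                mul_le_mul_left (le_self_add) _
            _ ≤ ε / 2 := ENNReal.mul_div_le
      _ = ε := ENNReal.add_halves ε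
  · -- separation
    by_contra hcon
    push Not at hcon
    have hseq : ∀ N : ℕ, ∃ p : K × K, p.1 ∈ η ⁻¹' CC ∧ p.2 ∈ η ⁻¹' CC ∧
        dist (φ p.1) (φ p.2) ≤ 1 / ((N : ℝ) + 1) ∧ l N p.1 = l N p.2 ∧ j p.1 = j p.2 ∧
        α p.1 ≠ α p.2 := by
      intro N
      obtain ⟨k, hk, k', hk', h1, h2, h3, h4⟩ := hcon (1 / ((N : ℝ) + 1)) (by positivity) N
      exact ⟨(k, k'), hk, hk', h1, h2, h3, h4⟩
    choose p hp1 hp2 hpd hpl hpj hpα using hseq
    have hlN : ∀ N n, n ≤ N → l n (p N).1 = l n (p N).2 := by
      intro N n hn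
      have h1 : ∀ d, ∀ n', n' + d = N → l n' (p N).1 = l n' (p N).2 := by
        intro d
        induction d with
        | zero => intro n' hn'; rw [show n' = N by omega]; exact hpl N
        | succ d ih => intro n' hn'; exact hmono n' _ _ (ih (n' + 1) (by omega))
      exact h1 (N - n) n (by omega)
    obtain ⟨⟨u, u'⟩, hu, θ, hθ, hlim⟩ := (hCCc.prod hCCc).tendsto_subseq
      (x := fun N => (η (p N).1, η (p N).2)) (fun N => ⟨hp1 N, hp2 N⟩)
    have hl1 : Tendsto (fun N => η (p (θ N)).1) atTop (𝓝 u) :=
      (continuous_fst.tendsto _).comp hlim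
    have hl2 : Tendsto (fun N => η (p (θ N)).2) atTop (𝓝 u') :=
      (continuous_snd.tendsto _).comp hlim
    have huu : u = u' := by
      refine Prod.ext ?_ (Prod.ext ?_ ?_)
      · have h1 : Tendsto (fun N => φ (p (θ N)).1) atTop (𝓝 u.1) :=
          (continuous_fst.tendsto _).comp hl1
        have h2 : Tendsto (fun N => φ (p (θ N)).2) atTop (𝓝 u'.1) :=
          (continuous_fst.tendsto _).comp hl2
        have h3 : Tendsto (fun N => dist (φ (p (θ N)).1) (φ (p (θ N)).2)) atTop (𝓝 (dist u.1 u'.1)) :=
          h1.dist h2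
        have h4 : Tendsto (fun N => dist (φ (p (θ N)).1) (φ (p (θ N)).2)) atTop (𝓝 0) := by
          refine squeeze_zero (fun _ => dist_nonneg) (fun N => hpd (θ N)) ?_
          exact (tendsto_one_div_add_atTop_nhds_zero_nat (𝕜 := ℝ)).comp hθ.tendsto_atTop
        exact dist_eq_zero.1 (tendsto_nhds_unique h3 h4)
      · funext n
        have h1 : Tendsto (fun N => l n (p (θ N)).1) atTop (𝓝 (u.2.1 n)) :=
          ((continuous_apply n).comp (continuous_fst.comp continuous_snd)).continuousAt.tendsto.comp hl1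
        have h2 : Tendsto (fun N => l n (p (θ N)).2) atTop (𝓝 (u'.2.1 n)) :=
          ((continuous_apply n).comp (continuous_fst.comp continuous_snd)).continuousAt.tendsto.comp hl2
        have h3 : Tendsto (fun N => l n (p (θ N)).1) atTop (𝓝 (u'.2.1 n)) := by
          refine h2.congr' ?_
          filter_upwards [eventually_ge_atTop n] with N hN
          exact (hlN (θ N) n (hN.trans (hθ.id_le N))).symm
        exact tendsto_nhds_unique h1 h3
      · have h1 : Tendsto (fun N => j (p (θ N)).1) atTop (𝓝 u.2.2) :=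
          (continuous_snd.comp continuous_snd).continuousAt.tendsto.comp hl1
        have h2 : Tendsto (fun N => j (p (θ N)).2) atTop (𝓝 u'.2.2) :=
          (continuous_snd.comp continuous_snd).continuousAt.tendsto.comp hl2
        have h3 : Tendsto (fun N => j (p (θ N)).1) atTop (𝓝 u'.2.2) := by
          refine h2.congr ?_
          intro N
          exact (hpj (θ N)).symm
        exact tendsto_nhds_unique h1 h3
    subst huu
    have huCC : u ∈ CC := hu.1
    obtain ⟨i, hi, hui⟩ : ∃ i, i < M ∧ u ∈ C i := by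
      simp only [CC, mem_iUnion, Finset.mem_range] at huCC
      obtain ⟨i, hi, h⟩ := huCC
      exact ⟨i, hi, h⟩
    -- the others
    let D : Set W := ⋃ i' ∈ (Finset.range M).erase i, C i'
    have hDc : IsClosed D :=
      (((Finset.range M).erase i).isCompact_biUnion fun i' _ => hCc i').isClosed
    have huD : u ∉ D := by
      intro h
      simp only [D, mem_iUnion, Finset.mem_erase] at h
      obtain ⟨i', ⟨hi', _⟩, h⟩ := h
      exact Set.disjoint_left.1 (hBdisj i i' (Ne.symm hi')) (hCB i hui) (hCB i' h)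
    have key : ∀ v : W, v ∈ CC → v ∉ D → v ∈ B i := by
      intro v hv hvD
      simp only [CC, mem_iUnion, Finset.mem_range] at hv
      obtain ⟨i', hi', h⟩ := hv
      by_cases hii : i' = i
      · subst hii; exact hCB _ h
      · exfalso
        apply hvD
        simp only [D, mem_iUnion, Finset.mem_erase, Finset.mem_range]
        exact ⟨i', ⟨hii, hi'⟩, h⟩
    have hα' : ∀ k, η k ∈ B i → α k = i := by
      rintro k ⟨k', hk', hkk⟩
      have := hηi hkk
      subst this
      exact hk'
    have e1 : ∀ᶠ N in atTop, η (p (θ N)).1 ∉ D := hl1 (hDc.isOpen_compl.mem_nhds huD)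
    have e2 : ∀ᶠ N in atTop, η (p (θ N)).2 ∉ D := hl2 (hDc.isOpen_compl.mem_nhds huD)
    obtain ⟨N, hN1, hN2⟩ := (e1.and e2).exists
    apply hpα (θ N)
    rw [hα' _ (key _ (hp1 (θ N)) hN1), hα' _ (key _ (hp2 (θ N)) hN2)]

end Pool.Agent.H.MP_894ea6_lc
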